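import Mathlib
import Pool.Agent.Work.MP_5e5ff1_ag.T.Defs

/-! The region of the weights of semistable bundles. -/

open Matrix

namespace Pool.Agent.Work.MP_5e5ff1_ag.S

open Pool.Agent.Work.MP_5e5ff1_ag.T

/-- The real numbers `v (i, j)` are, modulo one, the weights at the points `0, 1, ∞` of a
semistable parabolic bundle of degree zero on the complex projective line. -/
def SemistableWeights {r : ℕ} (v : Fin 3 × Fin r → ℝ) : Prop :=
  ∃ (g₀ g₁ : Matrix (Fin r) (Fin r) ℂ) (w : Fin 3 × Fin r → ℝ),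
    g₀.det ≠ 0 ∧ g₁.det ≠ 0 ∧ (∀ i, ∃ z : ℤ, v i = w i + z) ∧
    (∀ j, 0 ≤ w (0, j) ∧ w (0, j) ≤ 1 ∧ 0 ≤ w (1, j) ∧ w (1, j) ≤ 1) ∧ Semistable g₀ g₁ w

end Pool.Agent.Work.MP_5e5ff1_ag.S
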